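import Pool.Agent.NH69.SD.Prim
import Pool.Agent.Results.MP_d28c7d_co.LimitExpNegTwo

/-!
# An errorless procedure for the splittability of principal classes
-/

set_option autoImplicit false

open Equiv Pool.Agent.W6.PS Pool.Agent.TH691.US Filter Topology

namespace Pool.Agent.NH69.SD

/-- one-line notation, with values `0, …, n - 1` -/
def word {n : ℕ} (π : Perm (Fin n)) : List ℕ := List.ofFn fun i => (π i).val

@[simp] theorem word_length {n : ℕ} (π : Perm (Fin n)) : (word π).length = n := by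
  simp [word]

theorem getD_word {n : ℕ} (π : Perm (Fin n)) (i : Fin n) :
    (word π).getD i.val 0 = (π i).val := by
  rw [List.getD_eq_getElem _ _ (by simp)]
  simp [word]

/-- complement of a word -/
def complL (l : List ℕ) : List ℕ := l.map fun v => l.length - 1 - v

/-- reverse complement of a word -/
def rcL (l : List ℕ) : List ℕ := (complL l).reverse

theorem complL_word {n : ℕ} (π : Perm (Fin n)) : complL (word π) = word (compl π) := by
  apply List.ext_getElem
  · simp [complL]
  · intro i h1 h2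
    have h3 : i < n := by simpa using h2
    have h4 := compl_val π ⟨i, h3⟩
    simp only [complL, List.getElem_map, word, List.getElem_ofFn, List.length_ofFn]
    omega

theorem rcL_word {n : ℕ} (π : Perm (Fin n)) : rcL (word π) = word (rc π) := by
  apply List.ext_getElem
  · simp [rcL, complL]
  · intro i h1 h2
    have h3 : i < n := by simpa using h2
    simp only [rcL, complL, List.getElem_reverse, List.getElem_map, word, List.getElem_ofFn,
      List.length_ofFn, List.length_map, rc_apply, Fin.val_rev]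
    have h5 : (⟨n - 1 - i, by omega⟩ : Fin n) = (⟨i, h3⟩ : Fin n).rev := by
      apply Fin.ext
      rw [Fin.val_rev]
      simp only
      omega
    rw [h5]
    omega

open Primrec in
theorem prim_complL : Primrec complL := by
  unfold complL
  refine list_map Primrec.id ?_
  exact nat_sub.comp (nat_sub.comp (list_length.comp fst) (const 1)) snd

open Primrec in
theorem prim_rcL : Primrec rcL := list_reverse.comp prim_complL

open Tm Fm in
/-- there is a nontrivial block -/
def blkF : Fm := .ex .len (.and (.not (.lt (.v 0) (.c 2))) (.ex .len (.ex .len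
  (.and (.not (.lt .len (.add (.v 1) (.v 2))))
    (.not (.ex .len (.and (.and (.not (.lt (.v 0) (.v 2))) (.lt (.v 0) (.add (.v 2) (.v 3))))
      (.not (.and (.not (.lt (.get (.v 0)) (.v 1)))
        (.lt (.get (.v 0)) (.add (.v 1) (.v 3))))))))))))

/-- there is an adjacency -/
def adjF : Fm := .ex .len (.and (.lt (.add (.v 0) (.c 1)) .len)
  (.or (.eq (.get (.add (.v 0) (.c 1))) (.add (.get (.v 0)) (.c 1)))
    (.eq (.get (.v 0)) (.add (.get (.add (.v 0) (.c 1))) (.c 1)))))

/-- `HullBad` -/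
def hullF : Fm := .ex .len (.ex .len (.and (.and (.not (.lt (.v 1) (.c 2)))
    (.not (.lt .len (.add (.v 1) (.c 4)))))
  (.not (.ex .len (.and (.not (.lt (.add (.get (.v 0)) (.v 2)) .len))
    (.not (.and (.not (.lt (.v 0) (.v 1))) (.lt (.v 0) (.add (.v 1) (.add (.v 2) (.c 3)))))))))))

/-- `LowBad` -/
def lowF : Fm :=
  .or (.ex .len (.and (.or (.eq (.v 0) (.c 0)) (.eq (.add (.v 0) (.c 1)) .len))
    (.lt (.get (.v 0)) (.c 3))))
  (.or (.ex .len (.ex .len (.and (.and (.lt (.v 1) (.v 0)) (.lt (.v 0) (.add (.v 1) (.c 10))))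
    (.and (.lt (.get (.v 1)) (.c 3)) (.lt (.get (.v 0)) (.c 3))))))
  (.or (.ex .len (.and (.lt (.add (.v 0) (.c 2)) .len)
    (.and (.eq (.add (.get (.v 0)) (.c 1)) .len)
      (.eq (.get (.add (.v 0) (.c 2))) (.add (.get (.add (.v 0) (.c 1))) (.c 1))))))
  (.and (.lt (.c 1) .len) (.eq (.get (.c 1)) (.add (.get (.c 0)) (.c 1))))))

theorem blk_iff {n : ℕ} (π : Perm (Fin n)) :
    blkF.ev (word π, []) ↔ ∃ k, 2 ≤ k ∧ k < n ∧ HasBlock π k := by
  simp only [blkF, Fm.ev, Tm.ev, List.getD_cons_zero, List.getD_cons_succ, word_length, not_lt]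
  constructor
  · rintro ⟨k, hk, h2, s, hs, v, hv, hsk, hall⟩
    refine ⟨k, h2, hk, s, v, by omega, fun i h1 h3 => ?_⟩
    by_contra hcon
    refine hall ⟨i.val, i.isLt, ⟨h1, h3⟩, ?_⟩
    rw [getD_word]
    exact hcon
  · rintro ⟨k, h2, hk, s, v, hsk, hall⟩
    have h5 := hall ⟨s, by omega⟩ le_rfl (by simp only; omega)
    have h6 := (π ⟨s, by omega⟩).isLt
    refine ⟨k, hk, h2, s, by omega, v, by omega, by omega, ?_⟩
    rintro ⟨i, hi, h3, h8⟩
    have h4 := hall ⟨i, hi⟩ h3.1 h3.2
    have h7 := getD_word π ⟨i, hi⟩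
    simp only at h7
    rw [h7] at h8
    exact h8 h4

theorem adj_iff {n : ℕ} (π : Perm (Fin n)) : adjF.ev (word π, []) ↔ HasAdj π := by
  simp only [adjF, Fm.ev, Tm.ev, List.getD_cons_zero, word_length]
  constructor
  · rintro ⟨i, hi, hi1, h⟩
    have e1 := getD_word π ⟨i, hi⟩
    have e2 := getD_word π ⟨i + 1, hi1⟩
    simp only at e1 e2
    rw [e1, e2] at h
    exact ⟨⟨i, hi⟩, ⟨i + 1, hi1⟩, rfl, h⟩
  · rintro ⟨i, j, hij, h⟩
    refine ⟨i.val, i.isLt, by omega, ?_⟩
    have e1 := getD_word π i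
    have e2 := getD_word π j
    rw [hij] at e2
    rw [e1, e2]
    exact h

theorem hull_iff {n : ℕ} (π : Perm (Fin n)) : hullF.ev (word π, []) ↔ HullBad π := by
  simp only [hullF, Fm.ev, Tm.ev, List.getD_cons_zero, List.getD_cons_succ, word_length, not_lt]
  constructor
  · rintro ⟨k, hk, s, hs, ⟨h2, h4⟩, hall⟩
    refine ⟨k, s, h2, h4, fun i hi => ?_⟩
    have e1 := getD_word π i
    by_contra hcon
    refine hall ⟨i.val, i.isLt, by rw [e1]; exact hi, ?_⟩
    rintro ⟨h5, h6⟩
    exact hcon ⟨h5, by omega⟩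
  · rintro ⟨k, s, h2, h4, hall⟩
    obtain ⟨t, ht⟩ : ∃ t : Fin n, (π t).val + 1 = n := ⟨π.symm ⟨n - 1, by omega⟩, by simp; omega⟩
    have h5 := hall t (by omega)
    have h6 := t.isLt
    refine ⟨k, by omega, s, by omega, ⟨h2, h4⟩, ?_⟩
    rintro ⟨i, hi, h, h8⟩
    have e1 := getD_word π ⟨i, hi⟩
    simp only at e1
    rw [e1] at h
    have := hall ⟨i, hi⟩ h
    simp only at this
    exact h8 ⟨this.1, by omega⟩

theorem low_iff {n : ℕ} (π : Perm (Fin n)) : lowF.ev (word π, []) ↔ LowBad π := by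
  simp only [lowF, Fm.ev, Tm.ev, List.getD_cons_zero, List.getD_cons_succ, word_length]
  unfold LowBad
  refine or_congr ?_ (or_congr ?_ (or_congr ?_ ?_))
  · constructor
    · rintro ⟨i, hi, h1, h2⟩
      have e1 := getD_word π ⟨i, hi⟩
      simp only at e1
      rw [e1] at h2
      exact ⟨⟨i, hi⟩, h1, h2⟩
    · rintro ⟨i, h1, h2⟩
      exact ⟨i.val, i.isLt, h1, by rw [getD_word]; exact h2⟩
  · constructor
    · rintro ⟨i, hi, j, hj, ⟨h1, h2⟩, h3, h4⟩
      have e1 := getD_word π ⟨i, hi⟩
      have e2 := getD_word π ⟨j, hj⟩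
      simp only at e1 e2
      rw [e1] at h3
      rw [e2] at h4
      exact ⟨⟨i, hi⟩, ⟨j, hj⟩, h1, h2, h3, h4⟩
    · rintro ⟨i, j, h1, h2, h3, h4⟩
      exact ⟨i.val, i.isLt, j.val, j.isLt, ⟨h1, h2⟩, by rw [getD_word]; exact h3,
        by rw [getD_word]; exact h4⟩
  · constructor
    · rintro ⟨i, hi, h1, h2, h3⟩
      have e1 := getD_word π ⟨i, hi⟩
      have e2 := getD_word π ⟨i + 1, by omega⟩
      have e3 := getD_word π ⟨i + 2, h1⟩
      simp only at e1 e2 e3
      rw [e1] at h2
      rw [e2, e3] at h3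
      exact ⟨⟨i, hi⟩, ⟨i + 1, by omega⟩, ⟨i + 2, h1⟩, rfl, rfl, h2, h3⟩
    · rintro ⟨i, j, k, h1, h2, h3, h4⟩
      have hk : k.val = i.val + 2 := by omega
      refine ⟨i.val, i.isLt, by have := k.isLt; omega, by rw [getD_word]; exact h3, ?_⟩
      have e2 := getD_word π j
      have e3 := getD_word π k
      rw [h1] at e2
      rw [hk] at e3
      rw [e2, e3]
      exact h4
  · constructor
    · rintro ⟨h1, h2⟩
      have e1 := getD_word π ⟨0, by omega⟩
      have e2 := getD_word π ⟨1, h1⟩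
      simp only at e1 e2
      rw [e1, e2] at h2
      exact ⟨⟨0, by omega⟩, ⟨1, h1⟩, rfl, rfl, h2⟩
    · rintro ⟨i, j, h1, h2, h3⟩
      have e1 := getD_word π i
      have e2 := getD_word π j
      rw [h1] at e1
      rw [h2] at e2
      refine ⟨by have := j.isLt; omega, ?_⟩
      rw [e1, e2]
      exact h3

/-- long, with an adjacency, and not exceptional -/
def Good (l : List ℕ) : Prop :=
  (¬ l.length < 20) ∧ adjF.ev (l, []) ∧
  (¬ hullF.ev (l, []) ∧ ¬ lowF.ev (l, [])) ∧ (¬ hullF.ev (rcL l, []) ∧ ¬ lowF.ev (rcL l, [])) ∧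
  (¬ hullF.ev (complL l, []) ∧ ¬ lowF.ev (complL l, [])) ∧
  (¬ hullF.ev (rcL (complL l), []) ∧ ¬ lowF.ev (rcL (complL l), []))

theorem good_iff {n : ℕ} (π : Perm (Fin n)) : Good (word π) ↔ 20 ≤ n ∧ HasAdj π ∧ ¬ Bad π := by
  unfold Good Bad
  rw [complL_word, rcL_word, rcL_word, word_length, adj_iff, hull_iff, hull_iff, hull_iff, hull_iff,
    low_iff, low_iff, low_iff, low_iff]
  push Not
  tauto

open Primrec in
theorem prim_good : PrimrecPred Good := by
  have hc : ∀ (φ : Fm) (g : List ℕ → List ℕ), Primrec g → PrimrecPred fun l => ¬ φ.ev (g l, []) :=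
    fun φ g hg => (PrimrecPred.comp (p := fun l : List ℕ => φ.ev (l, [])) (f := g)
      (prim_pred φ) hg).not
  unfold Good
  refine PrimrecPred.and ?_ (PrimrecPred.and (prim_pred adjF) (PrimrecPred.and
    ((hc _ _ Primrec.id).and (hc _ _ Primrec.id)) (PrimrecPred.and
    ((hc _ _ prim_rcL).and (hc _ _ prim_rcL)) (PrimrecPred.and
    ((hc _ _ prim_complL).and (hc _ _ prim_complL))
    ((hc _ _ (prim_rcL.comp prim_complL)).and (hc _ _ (prim_rcL.comp prim_complL)))))))
  exact (nat_lt.comp list_length (const 20)).not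

open Classical in
/-- the procedure -/
noncomputable def dec (l : List ℕ) : Option Bool :=
  if ¬ blkF.ev (l, []) then some true else if Good l then some false else none

open Primrec Classical in
theorem prim_dec : Primrec dec := by
  unfold dec
  exact Primrec.ite (prim_pred blkF).not (const _) (Primrec.ite prim_good (const _) (const _))

theorem dec_true {n : ℕ} {π : Perm (Fin n)} (h : dec (word π) = some true) :
    Unsplittable (Av π) := by
  unfold dec at h
  by_cases h1 : blkF.ev (word π, [])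
  · rw [if_neg (not_not.2 h1)] at h
    by_cases h2 : Good (word π)
    · rw [if_pos h2] at h
      simp at h
    · rw [if_neg h2] at h
      simp at h
  · rw [blk_iff] at h1
    push Not at h1
    exact unsplittable_of_simple π h1

theorem dec_false {n : ℕ} {π : Perm (Fin n)} (h : dec (word π) = some false) :
    ¬ Unsplittable (Av π) := by
  unfold dec at h
  by_cases h1 : blkF.ev (word π, [])
  · rw [if_neg (not_not.2 h1)] at h
    by_cases h2 : Good (word π)
    · obtain ⟨h3, h4, h5⟩ := (good_iff π).1 h2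
      exact split_adj h3 h4 h5
    · rw [if_neg h2] at h
      simp at h
  · rw [if_pos h1] at h
    simp at h

theorem hasAdj_of_block {n : ℕ} {π : Perm (Fin n)} (h : HasBlock π 2) : HasAdj π := by
  obtain ⟨s, v, hsn, hsv⟩ := h
  have h1 := hsv ⟨s, by omega⟩ (le_refl _) (by simp)
  have h2 := hsv ⟨s + 1, by omega⟩ (by simp) (by simp)
  refine ⟨⟨s, by omega⟩, ⟨s + 1, by omega⟩, rfl, ?_⟩
  have h3 : (π ⟨s, by omega⟩).val ≠ (π ⟨s + 1, by omega⟩).val := by
    intro h
    have := π.injective (Fin.ext h)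
    simp at this
  omega

theorem dec_none {n : ℕ} (hn : 20 ≤ n) {π : Perm (Fin n)} (h : dec (word π) = none) :
    (∃ k, 3 ≤ k ∧ k < n ∧ HasBlock π k) ∨ Bad π := by
  unfold dec at h
  have h1 : blkF.ev (word π, []) := by
    by_contra h1
    rw [if_pos h1] at h
    simp at h
  rw [if_neg (not_not.2 h1)] at h
  have h2 : ¬ Good (word π) := by
    intro h2
    rw [if_pos h2] at h
    simp at h
  rw [blk_iff] at h1
  rw [good_iff] at h2
  obtain ⟨k, hk2, hkn, hb⟩ := h1
  by_cases hk : k = 2
  · subst hk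
    right
    by_contra hbad
    exact h2 ⟨hn, hasAdj_of_block hb, hbad⟩
  · left
    exact ⟨k, by omega, hkn, hb⟩

theorem frac_bad_le (n : ℕ) (hn : 20 ≤ n) : frac n (fun π => Bad π) ≤ 462192 / (n : ℝ) := by
  have h1 := Pool.Agent.TH645.US.frac_hull_le n (by omega)
  have h2 := Pool.Agent.TH645.US.frac_low_le n (by omega)
  have h3 : frac n (fun π : Perm (Fin n) => HullBad π ∨ LowBad π) ≤ 115548 / (n : ℝ) := by
    refine frac_or.trans ?_
    refine (add_le_add h1 h2).trans (le_of_eq ?_)
    ring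
  have h4 : frac n (fun π : Perm (Fin n) => HullBad (rc π) ∨ LowBad (rc π)) ≤ 115548 / (n : ℝ) :=
    (frac_comp (P := fun π => HullBad π ∨ LowBad π) rc (rc_injective n)).trans h3
  have h5 : frac n (fun π : Perm (Fin n) => (HullBad π ∨ LowBad π) ∨
      (HullBad (rc π) ∨ LowBad (rc π))) ≤ 231096 / (n : ℝ) := by
    refine frac_or.trans ((add_le_add h3 h4).trans (le_of_eq ?_))
    ring
  have h6 : frac n (fun π : Perm (Fin n) => (HullBad (compl π) ∨ LowBad (compl π)) ∨
      (HullBad (rc (compl π)) ∨ LowBad (rc (compl π)))) ≤ 231096 / (n : ℝ) :=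
    (frac_comp (P := fun π => (HullBad π ∨ LowBad π) ∨ (HullBad (rc π) ∨ LowBad (rc π))) compl
      (compl_injective n)).trans h5
  unfold Bad
  refine frac_or.trans ((add_le_add h5 h6).trans (le_of_eq ?_))
  ring

theorem frac_le_one (n : ℕ) (P : Perm (Fin n) → Prop) : frac n P ≤ 1 := by
  classical
  unfold frac
  rw [div_le_one (by positivity)]
  have h := Finset.card_le_univ (Finset.univ.filter P)
  rw [Fintype.card_perm, Fintype.card_fin] at h
  exact_mod_cast h

/-- the proportion of the permutations on which the procedure gives no answer -/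
theorem frac_none (n : ℕ) (hn : 1 ≤ n) :
    frac n (fun π => dec (word π) = none) ≤ 465648 / (n : ℝ) := by
  have hn0 : (0 : ℝ) < n := by exact_mod_cast hn
  by_cases h20 : 20 ≤ n
  · have h1 := Pool.Agent.TH645.US.frac_block_le n (by omega)
    have h2 := frac_bad_le n h20
    have h3 : frac n (fun π => dec (word π) = none) ≤
        frac n (fun π => (∃ k, 3 ≤ k ∧ k < n ∧ HasBlock π k) ∨ Bad π) :=
      frac_mono fun π hπ => dec_none h20 hπ
    refine h3.trans (frac_or.trans ((add_le_add h1 h2).trans (le_of_eq ?_)))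
    ring
  · refine (frac_le_one n _).trans ?_
    rw [le_div_iff₀ hn0]
    have : (n : ℝ) < 20 := by exact_mod_cast not_le.1 h20
    linarith

end Pool.Agent.NH69.SD
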