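import Pool.Agent.NH69.SD.Gad
import Pool.Agent.NH69.SD.Dec

/-!
# Random bases with a bounded number of elements
-/

set_option autoImplicit false

open Equiv Pool.Agent.W6.PS Pool.Agent.TH691.US Finset

namespace Pool.Agent.NH69.SD

open Classical in
/-- a permutation of size `r` has at most `2 ^ r` patterns of size `n` -/
theorem count_pat {r : ℕ} (σ : Perm (Fin r)) (n : ℕ) :
    (univ.filter fun ρ : Perm (Fin n) => Contains σ ρ).card ≤ 2 ^ r := by
  have h1 : ∀ ρ : {ρ : Perm (Fin n) // Contains σ ρ}, ∃ f : Fin n → Fin r, IsCopy ρ.1 σ f :=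
    fun ρ => ρ.2
  choose f hf using h1
  have hsm : ∀ ρ, StrictMono (f ρ) := fun ρ i j hij => (hf ρ).1 i j hij
  have hinj : Function.Injective fun ρ : {ρ : Perm (Fin n) // Contains σ ρ} =>
      (univ.image (f ρ) : Finset (Fin r)) := by
    intro ρ ρ' h
    have h2 : Set.range (f ρ) = Set.range (f ρ') := by
      have h3 := congrArg (fun s : Finset (Fin r) => (s : Set (Fin r))) h
      simpa using h3
    have h4 : f ρ = f ρ' := (StrictMono.range_inj (hsm ρ) (hsm ρ')).1 h2
    have h5 : ∀ i j, ρ.1 i < ρ.1 j ↔ ρ'.1 i < ρ'.1 j := by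
      intro i j
      rw [(hf ρ).2 i j, h4, ← (hf ρ').2 i j]
    have h6 : StrictMono (fun a => ρ'.1 (ρ.1.symm a)) := by
      intro a b hab
      exact (h5 _ _).1 (by simpa using hab)
    have h7 : (fun a => ρ'.1 (ρ.1.symm a)) = id := by
      refine (StrictMono.range_inj h6 strictMono_id).1 ?_
      rw [Set.range_id]
      exact (ρ.1.symm.trans ρ'.1).surjective.range_eq
    apply Subtype.ext
    ext i
    have h8 := congrFun h7 (ρ.1 i)
    simp only [Equiv.symm_apply_apply, id_eq] at h8
    rw [h8]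
  have h9 := Fintype.card_le_of_injective _ hinj
  rw [Fintype.card_finset, Fintype.card_fin, Fintype.card_subtype] at h9
  exact h9

open Classical in
theorem fiber {k : ℕ} {β : Fin k → Type} [∀ i, Fintype (β i)] (i : Fin k)
    (Q : (∀ j, β j) → Prop) (B : ℝ) (hpos : 0 < Fintype.card (β i))
    (h : ∀ F, ((univ.filter fun x : β i => Q (Function.update F i x)).card : ℝ) ≤
      B * Fintype.card (β i)) :
    ((univ.filter Q).card : ℝ) ≤ B * Fintype.card (∀ j, β j) := by
  let inv : Perm ((∀ j, β j) × β i) :=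
    { toFun := fun p => (Function.update p.1 i p.2, p.1 i)
      invFun := fun p => (Function.update p.1 i p.2, p.1 i)
      left_inv := fun p => by simp
      right_inv := fun p => by simp }
  have e1 : ∑ p : (∀ j, β j) × β i, (if Q (Function.update p.1 i p.2) then (1 : ℝ) else 0) =
      ∑ p : (∀ j, β j) × β i, (if Q p.1 then (1 : ℝ) else 0) :=
    Equiv.sum_comp inv fun p => if Q p.1 then (1 : ℝ) else 0
  rw [Fintype.sum_prod_type, Fintype.sum_prod_type] at e1
  have e2 : ∑ F : (∀ j, β j), ∑ _x : β i, (if Q F then (1 : ℝ) else 0) =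
      Fintype.card (β i) * (univ.filter Q).card := by
    rw [Finset.card_filter]
    push_cast
    rw [Finset.mul_sum]
    refine Finset.sum_congr rfl fun F _ => ?_
    rw [Finset.sum_const, Finset.card_univ, nsmul_eq_mul]
  have e3 : ∑ F : (∀ j, β j), ∑ x : β i, (if Q (Function.update F i x) then (1 : ℝ) else 0) ≤
      ∑ _F : (∀ j, β j), B * Fintype.card (β i) := by
    refine Finset.sum_le_sum fun F _ => ?_
    refine le_trans (le_of_eq ?_) (h F)
    rw [Finset.card_filter]
    push_cast
    rfl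
  rw [e1, e2, Finset.sum_const, Finset.card_univ, nsmul_eq_mul] at e3
  have h0 : (0 : ℝ) < Fintype.card (β i) := by exact_mod_cast hpos
  have e4 : (Fintype.card (β i) : ℝ) * (univ.filter Q).card ≤
      Fintype.card (β i) * (B * Fintype.card (∀ j, β j)) := by
    refine e3.trans (le_of_eq ?_)
    ring
  exact le_of_mul_le_mul_left e4 h0

/-- no proper interval with at least two elements -/
def Simple {n : ℕ} (π : Perm (Fin n)) : Prop := ∀ k, 2 ≤ k → k < n → ¬ HasBlock π k

/-- the exceptional event for a single permutation -/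
def Exc {n : ℕ} (π : Perm (Fin n)) : Prop := (∃ k, 3 ≤ k ∧ k < n ∧ HasBlock π k) ∨ Bad π

open Classical in
/-- a choice of the gadgets -/
noncomputable def g1 {n : ℕ} (π : Perm (Fin n)) : Σ r : ℕ, Perm (Fin r) :=
  if h : ∃ σ ρ, Gad π σ ρ then h.choose else ⟨0, 1⟩

open Classical in
/-- a choice of the gadgets -/
noncomputable def g2 {n : ℕ} (π : Perm (Fin n)) : Σ r : ℕ, Perm (Fin r) :=
  if h : ∃ σ ρ, Gad π σ ρ then h.choose_spec.choose else ⟨0, 1⟩

theorem gad_spec {n : ℕ} {π : Perm (Fin n)} (h : ∃ σ ρ, Gad π σ ρ) : Gad π (g1 π) (g2 π) := by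
  unfold g1 g2
  rw [dif_pos h, dif_pos h]
  exact h.choose_spec.choose_spec

theorem g1_le {n : ℕ} (π : Perm (Fin n)) : (g1 π).1 ≤ 2 * n := by
  by_cases h : ∃ σ ρ, Gad π σ ρ
  · exact (gad_spec h).1
  · unfold g1
    rw [dif_neg h]
    exact Nat.zero_le _

theorem g2_le {n : ℕ} (π : Perm (Fin n)) : (g2 π).1 ≤ 2 * n := by
  by_cases h : ∃ σ ρ, Gad π σ ρ
  · exact (gad_spec h).2.1
  · unfold g2
    rw [dif_neg h]
    exact Nat.zero_le _

/-- outside of the exceptional events the class is unsplittable if and only if the elements of the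
basis are simple -/
theorem dichotomy {k : ℕ} {m : Fin k → ℕ} (F : ∀ i, Perm (Fin (m i))) (hm : ∀ i, 20 ≤ m i)
    (h1 : ∀ i, ¬ Exc (F i))
    (h2 : ∀ i j, i ≠ j → ¬ (Contains (g1 (F j)).2 (F i) ∨ Contains (g2 (F j)).2 (F i))) :
    Unsplittable (AvF F) ↔ ∀ i, Simple (F i) := by
  constructor
  · intro hU
    by_contra hcon
    push Not at hcon
    obtain ⟨j, hj⟩ := hcon
    unfold Simple at hj
    push Not at hj
    obtain ⟨l, hl2, hlm, hb⟩ := hj
    have h3 := h1 j
    unfold Exc at h3
    push Not at h3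
    have hl : l = 2 := by
      by_contra hne
      exact h3.1 l (by omega) hlm hb
    subst hl
    have hg := gad_spec (gad_adj (hm j) (hasAdj_of_block hb) h3.2)
    exact split_avF F j _ _ hg (fun i hi h => h2 i j hi (Or.inl h))
      (fun i hi h => h2 i j hi (Or.inr h)) hU
  · intro h
    exact unsplittable_avF F h

end Pool.Agent.NH69.SD
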