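import Pool.Agent.NH69.SD.Cnt

/-!
# Random bases: the count
-/

set_option autoImplicit false

open Equiv Pool.Agent.W6.PS Pool.Agent.TH691.US Finset

namespace Pool.Agent.NH69.SD

open Nat (factorial)

theorem pow_div_le (x : ℝ) (hx : 0 ≤ x) (n : ℕ) (hn : 1 ≤ n) :
    x ^ n / (n.factorial : ℝ) ≤ x * Real.exp x / n := by
  obtain ⟨l, rfl⟩ : ∃ l, n = l + 1 := ⟨n - 1, by omega⟩
  have h1 := Real.pow_div_factorial_le_exp x hx l
  have h2 : (0 : ℝ) < (l.factorial : ℝ) := by exact_mod_cast Nat.factorial_pos l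
  have h3 : (0 : ℝ) < ((l + 1 : ℕ) : ℝ) := by positivity
  rw [Nat.factorial_succ]
  push_cast at h3 ⊢
  have e : x ^ (l + 1) / (((l : ℝ) + 1) * (l.factorial : ℝ)) =
      x * (x ^ l / (l.factorial : ℝ)) / ((l : ℝ) + 1) := by
    rw [pow_succ]
    field_simp
  rw [e]
  exact div_le_div_of_nonneg_right (mul_le_mul_of_nonneg_left h1 hx) h3.le

open Classical in
theorem count_exc {k : ℕ} {m : Fin k → ℕ} (i : Fin k) (n : ℕ) (hn : 20 ≤ n) (hm : n ≤ m i) :
    ((univ.filter fun F : ∀ i, Perm (Fin (m i)) => Exc (F i)).card : ℝ) ≤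
      465648 / n * Fintype.card (∀ i, Perm (Fin (m i))) := by
  have hn0 : (0 : ℝ) < n := by exact_mod_cast (by omega : 0 < n)
  refine fiber (β := fun i => Perm (Fin (m i))) i (fun F => Exc (F i)) _ Fintype.card_pos
    fun F => ?_
  simp only [Function.update_self]
  have h1 := Pool.Agent.TH645.US.frac_block_le (m i) (by omega)
  have h2 := frac_bad_le (m i) (by omega)
  have h3 : frac (m i) (fun π => Exc π) ≤ 465648 / (m i : ℝ) := by
    refine frac_or.trans ((add_le_add h1 h2).trans (le_of_eq ?_))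
    ring
  have hmi : (0 : ℝ) < ((m i).factorial : ℝ) := by exact_mod_cast Nat.factorial_pos _
  have h4 : 465648 / (m i : ℝ) ≤ 465648 / n := by
    have : (n : ℝ) ≤ m i := by exact_mod_cast hm
    gcongr
  have h5 := h3.trans h4
  unfold frac at h5
  rw [div_le_iff₀ hmi] at h5
  rw [Fintype.card_perm, Fintype.card_fin]
  exact h5

/-- `x` is contained in `σ` or in `ρ` -/
def Two {l : ℕ} (σ ρ : Σ r : ℕ, Perm (Fin r)) (x : Perm (Fin l)) : Prop :=
  Contains σ.2 x ∨ Contains ρ.2 x

open Classical in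
theorem count_two (σ ρ : Σ r : ℕ, Perm (Fin r)) (N l : ℕ) (hr : σ.1 ≤ N) (hs : ρ.1 ≤ N) :
    (univ.filter fun x : Perm (Fin l) => Two σ ρ x).card ≤ 2 * 2 ^ N := by
  have hsub : (univ.filter fun x : Perm (Fin l) => Two σ ρ x) ⊆
      (univ.filter fun x : Perm (Fin l) => Contains σ.2 x) ∪
        (univ.filter fun x : Perm (Fin l) => Contains ρ.2 x) := by
    intro x hx
    rw [Finset.mem_filter] at hx
    rw [Finset.mem_union, Finset.mem_filter, Finset.mem_filter]
    exact hx.2.imp (fun h => ⟨Finset.mem_univ _, h⟩) fun h => ⟨Finset.mem_univ _, h⟩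
  refine (Finset.card_le_card hsub).trans ((Finset.card_union_le _ _).trans ?_)
  have a1 := (count_pat σ.2 l).trans (Nat.pow_le_pow_right (by norm_num) hr)
  have a2 := (count_pat ρ.2 l).trans (Nat.pow_le_pow_right (by norm_num) hs)
  rw [two_mul]
  exact add_le_add a1 a2

theorem num_pair (n A l : ℕ) (hn : 1 ≤ n) (hm : n ≤ l) :
    (2 * 2 ^ (2 * (A * n)) : ℝ) ≤
      2 * (4 ^ A * Real.exp (4 ^ A)) / n * (l.factorial : ℝ) := by
  have hn0 : (0 : ℝ) < n := by exact_mod_cast (by omega : 0 < n)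
  have hf : (0 : ℝ) < (n.factorial : ℝ) := by exact_mod_cast Nat.factorial_pos _
  obtain ⟨x, hx⟩ : ∃ x : ℝ, x = 4 ^ A := ⟨_, rfl⟩
  have hx0 : 0 ≤ x := by rw [hx]; positivity
  have e : (2 : ℝ) ^ (2 * (A * n)) = x ^ n := by
    rw [hx, pow_mul, pow_mul]
    norm_num
  rw [e, ← hx]
  have h3 := pow_div_le x hx0 n hn
  have h4 : (n.factorial : ℝ) ≤ (l.factorial : ℝ) := by
    exact_mod_cast Nat.factorial_le hm
  rw [div_le_iff₀ hf] at h3
  have h5 : 0 ≤ x * Real.exp x / n := by positivity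
  calc 2 * x ^ n ≤ 2 * (x * Real.exp x / n * (n.factorial : ℝ)) := by linarith
    _ ≤ 2 * (x * Real.exp x / n * (l.factorial : ℝ)) := by gcongr
    _ = _ := by ring

open Classical in
theorem count_pair {k : ℕ} {m : Fin k → ℕ} (i j : Fin k) (hij : i ≠ j) (n A : ℕ) (hn : 20 ≤ n)
    (hm : n ≤ m i) (hA : m j ≤ A * n) :
    ((univ.filter fun F : ∀ i, Perm (Fin (m i)) =>
      Two (g1 (F j)) (g2 (F j)) (F i)).card : ℝ) ≤
      2 * (4 ^ A * Real.exp (4 ^ A)) / n * Fintype.card (∀ i, Perm (Fin (m i))) := by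
  refine fiber (β := fun i => Perm (Fin (m i))) i
    (fun F => Two (g1 (F j)) (g2 (F j)) (F i)) _
    Fintype.card_pos fun F => ?_
  have hup : ∀ x : Perm (Fin (m i)), Function.update F i x j = F j :=
    fun x => Function.update_of_ne hij.symm _ _
  simp only [Function.update_self, hup]
  have h1 := count_two (g1 (F j)) (g2 (F j)) (2 * (A * n)) (m i)
    ((g1_le (F j)).trans (Nat.mul_le_mul_left 2 hA))
    ((g2_le (F j)).trans (Nat.mul_le_mul_left 2 hA))
  have h2 := num_pair n A (m i) (by omega) hm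
  have h3 : ((univ.filter fun x : Perm (Fin (m i)) =>
      Two (g1 (F j)) (g2 (F j)) x).card : ℝ) ≤ 2 * 2 ^ (2 * (A * n)) := by
    have := (Nat.cast_le (α := ℝ)).2 h1
    push_cast at this
    exact this
  rw [Fintype.card_perm, Fintype.card_fin]
  exact h3.trans h2

open Classical in
/-- the count of the exceptional bases -/
theorem count_main (k A : ℕ) : ∃ C : ℝ, ∀ n : ℕ, 1 ≤ n → ∀ m : Fin k → ℕ,
    (∀ i, n ≤ m i ∧ m i ≤ A * n) →
    ((univ.filter fun F : ∀ i, Perm (Fin (m i)) =>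
      ¬ (Unsplittable (AvF F) ↔ ∀ i, Simple (F i))).card : ℝ) ≤
      C / n * ∏ i, ((m i).factorial : ℝ) := by
  obtain ⟨D, hD⟩ : ∃ D : ℝ, D = 2 * (4 ^ A * Real.exp (4 ^ A)) := ⟨_, rfl⟩
  have hD0 : 0 ≤ D := by rw [hD]; positivity
  refine ⟨20 + k * 465648 + k * (k * D), fun n hn m hm => ?_⟩
  have hn0 : (0 : ℝ) < n := by exact_mod_cast (by omega : 0 < n)
  have hN : ∏ i, ((m i).factorial : ℝ) = Fintype.card (∀ i, Perm (Fin (m i))) := by
    rw [Fintype.card_pi]
    push_cast
    refine Finset.prod_congr rfl fun i _ => ?_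
    rw [Fintype.card_perm, Fintype.card_fin]
  rw [hN]
  obtain ⟨N, hNe⟩ : ∃ N : ℝ, N = Fintype.card (∀ i, Perm (Fin (m i))) := ⟨_, rfl⟩
  have hN0 : 0 ≤ N := by rw [hNe]; positivity
  rw [← hNe]
  by_cases h20 : 20 ≤ n
  · have hsub : (univ.filter fun F : ∀ i, Perm (Fin (m i)) =>
        ¬ (Unsplittable (AvF F) ↔ ∀ i, Simple (F i))) ⊆
        (univ.biUnion fun i : Fin k => univ.filter fun F : ∀ i, Perm (Fin (m i)) => Exc (F i)) ∪
        (univ.biUnion fun i : Fin k => univ.biUnion fun j : Fin k =>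
          if i ≠ j then univ.filter fun F : ∀ i, Perm (Fin (m i)) =>
            Two (g1 (F j)) (g2 (F j)) (F i) else ∅) := by
      intro F hF
      rw [Finset.mem_filter] at hF
      by_contra hcon
      rw [Finset.mem_union, not_or] at hcon
      obtain ⟨h1, h2⟩ := hcon
      simp only [Finset.mem_biUnion, Finset.mem_univ, true_and, Finset.mem_filter, not_exists]
        at h1 h2
      refine hF.2 (dichotomy F (fun i => h20.trans (hm i).1) h1 fun i j hij h => ?_)
      have h3 := h2 i j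
      rw [if_pos hij, Finset.mem_filter] at h3
      exact h3 ⟨Finset.mem_univ _, h⟩
    have c1 : (((univ.biUnion fun i : Fin k => univ.filter fun F : ∀ i, Perm (Fin (m i)) =>
        Exc (F i)).card : ℕ) : ℝ) ≤ k * (465648 / n * N) := by
      refine (Nat.cast_le.2 Finset.card_biUnion_le).trans ?_
      push_cast
      refine (Finset.sum_le_card_nsmul _ _ (465648 / n * N) fun i _ => ?_).trans (le_of_eq ?_)
      · rw [hNe]
        exact count_exc i n h20 (hm i).1
      · rw [Finset.card_univ, Fintype.card_fin, nsmul_eq_mul]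
    have c2 : (((univ.biUnion fun i : Fin k => univ.biUnion fun j : Fin k =>
          if i ≠ j then univ.filter fun F : ∀ i, Perm (Fin (m i)) =>
            Two (g1 (F j)) (g2 (F j)) (F i) else ∅).card : ℕ) : ℝ) ≤
          k * (k * (D / n * N)) := by
      refine (Nat.cast_le.2 Finset.card_biUnion_le).trans ?_
      push_cast
      refine (Finset.sum_le_card_nsmul _ _ (k * (D / n * N)) fun i _ => ?_).trans (le_of_eq ?_)
      · refine (Nat.cast_le.2 Finset.card_biUnion_le).trans ?_
        push_cast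
        refine (Finset.sum_le_card_nsmul _ _ (D / n * N) fun j _ => ?_).trans (le_of_eq ?_)
        · by_cases hij : i ≠ j
          · rw [if_pos hij, hNe, hD]
            exact count_pair i j hij n A h20 (hm i).1 (hm j).2
          · rw [if_neg hij, Finset.card_empty, Nat.cast_zero]
            positivity
        · rw [Finset.card_univ, Fintype.card_fin, nsmul_eq_mul]
      · rw [Finset.card_univ, Fintype.card_fin, nsmul_eq_mul]
    have c3 := (Nat.cast_le (α := ℝ)).2 ((Finset.card_le_card hsub).trans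
      (Finset.card_union_le _ _))
    push_cast at c3
    have h5 : 0 ≤ 20 / (n : ℝ) * N := by positivity
    calc _ ≤ _ := c3
      _ ≤ k * (465648 / n * N) + k * (k * (D / n * N)) := add_le_add c1 c2
      _ ≤ 20 / (n : ℝ) * N + (k * (465648 / n * N) + k * (k * (D / n * N))) := by linarith
      _ = (20 + k * 465648 + k * (k * D)) / n * N := by ring
  · have h1 : ((univ.filter fun F : ∀ i, Perm (Fin (m i)) =>
        ¬ (Unsplittable (AvF F) ↔ ∀ i, Simple (F i))).card : ℝ) ≤ N := by
      rw [hNe]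
      exact_mod_cast Finset.card_le_univ _
    have h2 : (1 : ℝ) ≤ (20 + k * 465648 + k * (k * D)) / n := by
      rw [le_div_iff₀ hn0]
      have h3 : (n : ℝ) < 20 := by exact_mod_cast not_le.1 h20
      have h4 : (0 : ℝ) ≤ k * 465648 + k * (k * D) := by positivity
      linarith
    calc _ ≤ N := h1
      _ = 1 * N := (one_mul N).symm
      _ ≤ _ := by gcongr

end Pool.Agent.NH69.SD
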