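import Pool.Agent.NH69.SD.Uns
import Pool.Agent.TH691.US.Sym

/-!
# The splitting gadgets and their size (after `Pool.Agent.TH691.US.Amalg`)
-/

set_option autoImplicit false

open Equiv Pool.Agent.W6.PS Pool.Agent.TH691.US

namespace Pool.Agent.NH69.SD

/-- two permutations of size at most `2 n` which show that `Av π` is splittable -/
def Gad {n : ℕ} (π : Perm (Fin n)) (σ ρ : Σ m : ℕ, Perm (Fin m)) : Prop :=
  σ.1 ≤ 2 * n ∧ ρ.1 ≤ 2 * n ∧ σ ∈ Av π ∧ ρ ∈ Av π ∧ ∀ τ ∈ Av π, ∃ c : Fin τ.1 → Bool,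
    ¬ (ColouredCopy σ.2 τ.2 c true ∨ ColouredCopy ρ.2 τ.2 c false)

variable {n : ℕ} {π : Perm (Fin n)}

theorem card_I (K : Dat π) : Fintype.card K.I ≤ 2 * n := by
  have h1 : Fintype.card {i : Fin n // i ≠ K.a ∧ i ≠ K.b} < n := by
    have := Fintype.card_subtype_lt (p := fun i : Fin n => i ≠ K.a ∧ i ≠ K.b) (x := K.a)
      (fun h => h.1 rfl)
    rwa [Fintype.card_fin] at this
  have h2 : Fintype.card K.I = Fintype.card (Fin n) +
      (Fintype.card {i : Fin n // i ≠ K.a ∧ i ≠ K.b} + 1) := by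
    rw [Fintype.card_sum, Fintype.card_option]
  rw [h2, Fintype.card_fin]
  omega

/-- the splitting theorem -/
theorem exists_gad (K : Dat π) (K' : Dat (rc π)) : ∃ σ ρ, Gad π σ ρ := by
  classical
  obtain ⟨σ2, e2, he2X, he2Y⟩ := standardize K.X K.Y K.X_injective K.Y_injective
  obtain ⟨σ1, e1, he1X, he1Y⟩ := standardize (fun i => OrderDual.toDual (K'.X i))
    (fun i => OrderDual.toDual (K'.Y i))
    (fun i j h => K'.X_injective h) (fun i j h => K'.Y_injective h)
  have hσ2 : (⟨_, σ2⟩ : Σ m : ℕ, Perm (Fin m)) ∈ Av π := by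
    rintro ⟨f, hf1, hf2⟩
    refine K.avoid (f := fun i => e2 (f i)) ⟨fun i j hij => ?_, fun i j hij => ?_⟩
    · exact (he2X _ _).1 (hf1 i j hij)
    · exact (he2Y _ _).1 ((hf2 i j).1 hij)
  have hσ1 : (⟨_, σ1⟩ : Σ m : ℕ, Perm (Fin m)) ∈ Av π := by
    rintro ⟨f, hf1, hf2⟩
    refine K'.avoid (f := fun i => e1 (f i.rev)) ⟨fun i j hij => ?_, fun i j hij => ?_⟩
    · have := (he1X _ _).1 (hf1 j.rev i.rev (Fin.rev_lt_rev.2 hij))
      exact OrderDual.toDual_lt_toDual.1 this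
    · rw [rc_apply, rc_apply, Fin.rev_lt_rev] at hij
      have := (he1Y _ _).1 ((hf2 j.rev i.rev).1 hij)
      exact OrderDual.toDual_lt_toDual.1 this
  refine ⟨⟨_, σ1⟩, ⟨_, σ2⟩, card_I K', card_I K, hσ1, hσ2, ?_⟩
  rintro ⟨m, τ⟩ hτ
  have hτ' : ∀ f : Fin n → Fin m, (∀ i j, i < j → f i < f j) → (∀ i j, π i < π j →
      τ (f i) < τ (f j)) → False := by
    intro f h1 h2
    apply hτ
    refine ⟨f, h1, fun i j => ⟨h2 i j, fun h => ?_⟩⟩
    rcases lt_trichotomy (π i) (π j) with h3 | h3 | h3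
    · exact h3
    · rw [π.injective h3] at h
      exact absurd h (lt_irrefl _)
    · exact absurd (h2 j i h3) (not_lt.2 h.le)
  -- the marked positions
  set c : Fin m → Bool := fun y => !decide (∃ f, IsCopy σ1 τ f ∧ f (e1.symm K'.x) = y) with hcdef
  refine ⟨c, ?_⟩
  rintro (⟨f, hf, hfc⟩ | ⟨f, hf, hfc⟩)
  · have h1 := hfc (e1.symm K'.x)
    rw [hcdef] at h1
    simp only [Bool.not_eq_true', decide_eq_false_iff_not] at h1
    exact h1 ⟨f, hf, rfl⟩
  · have h1 := hfc (e2.symm K.x)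
    rw [hcdef] at h1
    simp only [Bool.not_eq_false', decide_eq_true_eq] at h1
    obtain ⟨f1, hf1, hf1x⟩ := h1
    -- the two embeddings
    set g2 : K.I → Fin m := fun i => f (e2.symm i) with hg2
    set g1 : K'.I → Fin m := fun i => f1 (e1.symm i) with hg1
    have g2X : ∀ i j, K.X i < K.X j → g2 i < g2 j := by
      intro i j hij
      apply hf.1
      rw [he2X]
      simpa using hij
    have g2Y : ∀ i j, K.Y i < K.Y j → τ (g2 i) < τ (g2 j) := by
      intro i j hij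
      apply (hf.2 _ _).1
      rw [he2Y]
      simpa using hij
    have g1X : ∀ i j, K'.X i < K'.X j → g1 j < g1 i := by
      intro i j hij
      apply hf1.1
      rw [he1X]
      simpa using hij
    have g1Y : ∀ i j, K'.Y i < K'.Y j → τ (g1 j) < τ (g1 i) := by
      intro i j hij
      apply (hf1.2 _ _).1
      rw [he1Y]
      simpa using hij
    have hx : g1 K'.x = g2 K.x := hf1x
    -- an occurrence found with the first configuration
    have occ1 : (∃ f', Occ (rc π) (fun i : Fin m => OrderDual.toDual i)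
        (fun i : Fin m => OrderDual.toDual (τ i)) f') → False := by
      rintro ⟨f', hf'⟩
      refine hτ' (fun i => f' i.rev) (fun i j hij => ?_) (fun i j hij => ?_)
      · exact OrderDual.toDual_lt_toDual.1 (hf'.1 j.rev i.rev (Fin.rev_lt_rev.2 hij))
      · refine OrderDual.toDual_lt_toDual.1 (hf'.2 j.rev i.rev ?_)
        rw [rc_apply, rc_apply, Fin.rev_rev, Fin.rev_rev]
        exact Fin.rev_lt_rev.2 hij
    have occ2 : (∃ f', Occ π (id : Fin m → Fin m) (fun i => τ i) f') → False := by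
      rintro ⟨f', hf'⟩
      exact hτ' f' hf'.1 hf'.2
    have d1X : ∀ i j, K'.X i < K'.X j →
        OrderDual.toDual (g1 i) < OrderDual.toDual (g1 j) :=
      fun i j hij => OrderDual.toDual_lt_toDual.2 (g1X i j hij)
    have d1Y : ∀ i j, K'.Y i < K'.Y j →
        OrderDual.toDual (τ (g1 i)) < OrderDual.toDual (τ (g1 j)) :=
      fun i j hij => OrderDual.toDual_lt_toDual.2 (g1Y i j hij)
    -- facts on the second configuration
    have a1 : g2 K.P < g2 K.P' := g2X _ _ (by rw [K.X_P, K.X_P']; omega)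
    have a2 : g2 K.P' < g2 K.x := g2X _ _ (by rw [K.X_x, K.X_P']; omega)
    have a3 : τ (g2 K.x) < τ (g2 K.P) := g2Y _ _ (by
      rw [K.Y_x, K.Y_P]; have := (π K.q').isLt; omega)
    have a4 : τ (g2 K.P) < τ (g2 K.P') := g2Y _ _ (by rw [K.Y_P, K.Y_P']; omega)
    -- facts on the first configuration
    have b1 : g1 K'.R < g1 K'.x := g1X _ _ (by rw [K'.X_x, K'.X_R]; omega)
    have b2 : τ (g1 K'.R) < τ (g1 K'.x) := g1Y _ _ (by
      rw [K'.Y_x, K'.Y_R]; have := (rc π K'.q').isLt; omega)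
    have b3 : g1 K'.x < g1 K'.P := g1X _ _ (by rw [K'.X_x, K'.X_P]; omega)
    -- step 1
    have c1 : g1 K'.R < g2 K.P := by
      rcases lt_trichotomy (g1 K'.R) (g2 K.P) with h | h | h
      · exact h
      · exfalso
        rw [h, hx] at b2
        exact lt_asymm b2 a3
      · exfalso
        apply occ2
        apply K.left_low (g := g2) g2X g2Y τ.injective (y := g1 K'.R) h
        · rw [← hx]; exact b1
        · rw [← hx]; exact b2
    -- step 2
    have key : ∀ y : Fin m, g1 K'.R < y → y < g1 K'.x → τ (g1 K'.x) < τ y → τ y < τ (g1 K'.d) := by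
      intro y h1 h2 h3
      rcases lt_trichotomy (τ y) (τ (g1 K'.d)) with h | h | h
      · exact h
      · exfalso
        have hy : y = g1 K'.d := τ.injective h
        rcases K'.dab with h' | h'
        · have := g1X K'.R K'.d (by rw [K'.X_R, K'.X_d]; omega)
          rw [← hy] at this
          exact lt_asymm h1 this
        · have := g1X K'.d K'.x (by rw [K'.X_x, K'.X_d]; omega)
          rw [← hy] at this
          exact lt_asymm h2 this
      · exfalso
        apply occ1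
        exact K'.low (g := g1) d1X d1Y (y := y)
          (OrderDual.toDual_lt_toDual.2 (h2.trans b3)) (OrderDual.toDual_lt_toDual.2 h1)
          (OrderDual.toDual_lt_toDual.2 h)
    have c2 : τ (g2 K.P') < τ (g1 K'.d) :=
      key _ (c1.trans a1) (by rw [hx]; exact a2) (by rw [hx]; exact a3.trans a4)
    -- step 3
    apply occ1
    refine K'.pair (g := g1) d1X d1Y (y := g2 K.P') (y' := g2 K.P) ?_ ?_ ?_ ?_ ?_ ?_
    · exact OrderDual.toDual_lt_toDual.2 ((by rw [hx]; exact a2 : g2 K.P' < g1 K'.x).trans b3)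
    · exact OrderDual.toDual_lt_toDual.2 a1
    · left; exact OrderDual.toDual_lt_toDual.2 c1
    · left; exact OrderDual.toDual_lt_toDual.2 c2
    · exact OrderDual.toDual_lt_toDual.2 a4
    · left
      exact OrderDual.toDual_lt_toDual.2 (by rw [hx]; exact a3)

theorem gad_compl {σ ρ : Σ m : ℕ, Perm (Fin m)} (h : Gad (compl π) σ ρ) :
    Gad π ⟨σ.1, compl σ.2⟩ ⟨ρ.1, compl ρ.2⟩ := by
  obtain ⟨h1, h2, h3, h4, h5⟩ := h
  refine ⟨h1, h2, mem_av_compl h3, mem_av_compl h4, ?_⟩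
  rintro ⟨m, τ⟩ hτ
  obtain ⟨c, hc⟩ := h5 ⟨m, compl τ⟩ (by
    have : (⟨m, τ⟩ : Σ m : ℕ, Perm (Fin m)) ∈ Av (compl (compl π)) := by
      rw [compl_compl']
      exact hτ
    exact mem_av_compl this)
  refine ⟨c, fun h => hc ?_⟩
  rcases h with ⟨f, hf, hfc⟩ | ⟨f, hf, hfc⟩
  · left
    refine ⟨f, ?_, hfc⟩
    have := isCopy_compl hf
    rwa [compl_compl'] at this
  · right
    refine ⟨f, ?_, hfc⟩
    have := isCopy_compl hf
    rwa [compl_compl'] at this

theorem gad_inc (hn : 20 ≤ n) (h : IncAdj π) (h1 : ¬ HullBad π)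
    (h2 : ¬ LowBad π) (h3 : ¬ HullBad (rc π)) (h4 : ¬ LowBad (rc π)) : ∃ σ ρ, Gad π σ ρ := by
  obtain ⟨K⟩ := exists_dat hn h h1 h2
  obtain ⟨K'⟩ := exists_dat hn (incAdj_rc h) h3 h4
  exact exists_gad K K'

theorem gad_adj (hn : 20 ≤ n) (h : HasAdj π) (hb : ¬ Bad π) : ∃ σ ρ, Gad π σ ρ := by
  unfold Bad at hb
  push Not at hb
  obtain ⟨⟨⟨h1, h2⟩, h3, h4⟩, ⟨h5, h6⟩, h7, h8⟩ := hb
  obtain ⟨i, j, hij, h' | h'⟩ := h
  · exact gad_inc hn ⟨i, j, hij, h'⟩ h1 h2 h3 h4
  · obtain ⟨σ, ρ, hg⟩ := gad_inc hn (π := compl π) ⟨i, j, hij, by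
      have e1 := compl_val π i
      have e2 := compl_val π j
      omega⟩ h5 h6 h7 h8
    exact ⟨_, _, gad_compl hg⟩

/-- splittability with several basis elements -/
theorem split_avF {k : ℕ} {m : Fin k → ℕ} (F : ∀ i, Perm (Fin (m i))) (j : Fin k)
    (σ ρ : Σ r : ℕ, Perm (Fin r)) (hg : Gad (F j) σ ρ)
    (h1 : ∀ i, i ≠ j → ¬ Contains σ.2 (F i)) (h2 : ∀ i, i ≠ j → ¬ Contains ρ.2 (F i)) :
    ¬ Unsplittable (AvF F) := by
  intro hU
  obtain ⟨-, -, h3, h4, h5⟩ := hg
  obtain ⟨τ, hτ, hc⟩ := hU σ (fun i => by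
    by_cases hi : i = j
    · rw [hi]; exact h3
    · exact h1 i hi) ρ (fun i => by
    by_cases hi : i = j
    · rw [hi]; exact h4
    · exact h2 i hi)
  obtain ⟨c, hc'⟩ := h5 τ (hτ j)
  exact hc' (hc c)

end Pool.Agent.NH69.SD
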