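import Mathlib

/-!
# Bounded formulas about a list of natural numbers are primitive recursive
-/

set_option autoImplicit false

namespace Pool.Agent.NH69.SD

/-- terms: variables, constants, the length of the list, its entries, sums -/
inductive Tm where
  | v (i : ℕ)
  | c (a : ℕ)
  | len
  | get (t : Tm)
  | add (s t : Tm)

/-- the value of a term; the first component is the list, the second one the values of the
variables -/
def Tm.ev : Tm → List ℕ × List ℕ → ℕ
  | .v i, p => p.2.getD i 0
  | .c a, _ => a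
  | .len, p => p.1.length
  | .get t, p => p.1.getD (t.ev p) 0
  | .add s t, p => s.ev p + t.ev p

/-- bounded formulas -/
inductive Fm where
  | lt (s t : Tm)
  | eq (s t : Tm)
  | not (φ : Fm)
  | and (φ ψ : Fm)
  | or (φ ψ : Fm)
  | ex (t : Tm) (φ : Fm)

/-- validity of a formula -/
def Fm.ev : Fm → List ℕ × List ℕ → Prop
  | .lt s t, p => s.ev p < t.ev p
  | .eq s t, p => s.ev p = t.ev p
  | .not φ, p => ¬ φ.ev p
  | .and φ ψ, p => φ.ev p ∧ ψ.ev p
  | .or φ ψ, p => φ.ev p ∨ ψ.ev p
  | .ex t φ, p => ∃ x < t.ev p, φ.ev (p.1, x :: p.2)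

open Primrec in
theorem Tm.prim (t : Tm) : Primrec t.ev := by
  induction t with
  | v i => exact ((list_getD (α := ℕ) 0).comp snd (const i)).of_eq fun p => rfl
  | c a => exact (const a).of_eq fun p => rfl
  | len => exact (list_length.comp fst).of_eq fun p => rfl
  | get t ih => exact ((list_getD (α := ℕ) 0).comp fst ih).of_eq fun p => rfl
  | add s t ih1 ih2 => exact (nat_add.comp ih1 ih2).of_eq fun p => rfl

open Primrec in
theorem Fm.prim (φ : Fm) : PrimrecPred φ.ev := by
  induction φ with
  | lt s t => exact (nat_lt.comp s.prim t.prim).of_eq fun p => Iff.rfl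
  | eq s t => exact ((Primrec.eq (α := ℕ)).comp s.prim t.prim).of_eq fun p => Iff.rfl
  | not φ ih => exact ih.not.of_eq fun p => Iff.rfl
  | and φ ψ ih1 ih2 => exact (ih1.and ih2).of_eq fun p => Iff.rfl
  | or φ ψ ih1 ih2 => exact (ih1.or ih2).of_eq fun p => Iff.rfl
  | ex t φ ih =>
    have h1 : PrimrecRel fun (x : ℕ) (p : List ℕ × List ℕ) => φ.ev (p.1, x :: p.2) := by
      refine PrimrecPred.comp (p := φ.ev)
        (f := fun q : ℕ × (List ℕ × List ℕ) => (q.2.1, q.1 :: q.2.2)) ih ?_
      exact (fst.comp snd).pair (list_cons.comp fst (snd.comp snd))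
    have h2 : PrimrecRel fun (n : ℕ) (p : List ℕ × List ℕ) => ∃ x < n, φ.ev (p.1, x :: p.2) :=
      (h1.exists_mem_list.comp (list_range.comp fst) snd).of_eq (by simp)
    exact (h2.comp t.prim Primrec.id).of_eq fun p => Iff.rfl

/-- a property of lists given by a formula without free variables -/
theorem prim_pred (φ : Fm) : PrimrecPred fun l : List ℕ => φ.ev (l, []) :=
  PrimrecPred.comp (p := φ.ev) (f := fun l : List ℕ => (l, ([] : List ℕ))) φ.prim
    (Primrec.id.pair (Primrec.const []))

end Pool.Agent.NH69.SD
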