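import Pool.Agent.TH667.J1581

/-!
# Inflation (after `Pool.Agent.TH667.J1581`), for classes with several basis elements
-/

set_option autoImplicit false

open Equiv Pool.Agent.W6.PS Pool.Agent.TH691.US

namespace Pool.Agent.NH69.SD

/-- the inflation of `σ` by `ρ` -/
theorem inflate {m₁ m₂ : ℕ} (σ : Perm (Fin m₁)) (ρ : Perm (Fin m₂)) :
    ∃ τ : Σ m : ℕ, Perm (Fin m),
      (∀ (n : ℕ) (π : Perm (Fin n)), (∀ k, 2 ≤ k → k < n → ¬ HasBlock π k) →
        ¬ Contains σ π → ¬ Contains ρ π → ¬ Contains τ.2 π) ∧
      ∀ c : Fin τ.1 → Bool, ColouredCopy σ τ.2 c true ∨ ColouredCopy ρ τ.2 c false := by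
  classical
  obtain ⟨τ, e, hX, hY⟩ := standardize (ι := Fin m₁ × Fin m₂)
    (fun p => toLex (p.1, p.2)) (fun p => toLex (σ p.1, ρ p.2))
    (by
      rintro ⟨a, b⟩ ⟨a', b'⟩ hab
      exact toLex.injective hab)
    (by
      rintro ⟨a, b⟩ ⟨a', b'⟩ hab
      have h1 := toLex.injective hab
      simp only [Prod.mk.injEq] at h1
      exact Prod.ext (σ.injective h1.1) (ρ.injective h1.2))
  simp only [Prod.Lex.toLex_lt_toLex] at hX hY
  refine ⟨⟨_, τ⟩, ?_, ?_⟩
  · -- avoidance
    intro n π h hσ hρ
    rintro ⟨f, hf1, hf2⟩
    set g : Fin n → Fin m₁ := fun i => (e (f i)).1 with hg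
    set q : Fin n → Fin m₂ := fun i => (e (f i)).2 with hq
    have G1 : ∀ i j, i < j → g i < g j ∨ g i = g j ∧ q i < q j := fun i j hij =>
      (hX _ _).1 (hf1 i j hij)
    have G2 : ∀ i j, π i < π j → σ (g i) < σ (g j) ∨ σ (g i) = σ (g j) ∧ ρ (q i) < ρ (q j) :=
      fun i j hij => (hY _ _).1 ((hf2 i j).1 hij)
    have Gmono : ∀ i j, i ≤ j → g i ≤ g j := by
      intro i j hij
      rcases hij.lt_or_eq with hl | hl
      · rcases G1 i j hl with h1 | h1
        · exact h1.le
        · exact h1.1.le
      · rw [hl]
    have Gmono2 : ∀ i j, π i ≤ π j → σ (g i) ≤ σ (g j) := by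
      intro i j hij
      rcases hij.lt_or_eq with hl | hl
      · rcases G2 i j hl with h1 | h1
        · exact h1.le
        · exact h1.1.le
      · rw [π.injective hl]
    by_cases hinj : Function.Injective g
    · apply hσ
      refine ⟨g, fun i j hij => ?_, fun i j => ⟨fun hij => ?_, fun hij => ?_⟩⟩
      · rcases G1 i j hij with h1 | h1
        · exact h1
        · exact absurd (hinj h1.1) (ne_of_lt hij)
      · rcases G2 i j hij with h1 | h1
        · exact h1
        · have := hinj (σ.injective h1.1)
          rw [this] at hij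
          exact absurd hij (lt_irrefl _)
      · by_contra hcon
        exact absurd (Gmono2 j i (not_lt.1 hcon)) (not_le.2 hij)
    · -- two elements in the same block
      rw [Function.Injective] at hinj
      push Not at hinj
      obtain ⟨i₀, j₀, hij₀, hne₀⟩ := hinj
      set S : Finset (Fin n) := Finset.univ.filter (fun l => g l = g i₀) with hS
      have memS : ∀ l, l ∈ S ↔ g l = g i₀ := fun l => by simp [hS]
      have hSne : S.Nonempty := ⟨i₀, (memS _).2 rfl⟩
      obtain ⟨s, hs1, hs2⟩ := fin_interval S hSne (by
        intro a b c ha hc hab hbc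
        rw [memS] at ha hc ⊢
        apply le_antisymm
        · rw [← hc]; exact Gmono _ _ hbc
        · rw [← ha]; exact Gmono _ _ hab)
      set T : Finset (Fin n) := S.map π.toEmbedding with hTdef
      have hTcard : T.card = S.card := Finset.card_map _
      have memT : ∀ x, x ∈ T ↔ g (π.symm x) = g i₀ := by
        intro x
        rw [hTdef, Finset.mem_map]
        constructor
        · rintro ⟨l, hl, rfl⟩
          simpa using (memS l).1 hl
        · intro hx
          exact ⟨π.symm x, (memS _).2 hx, by simp⟩
      have hTne : T.Nonempty := hSne.map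
      obtain ⟨v, hv1, hv2⟩ := fin_interval T hTne (by
        intro a b c ha hc hab hbc
        rw [memT] at ha hc ⊢
        apply σ.injective
        apply le_antisymm
        · rw [← hc]
          apply Gmono2
          simpa using hbc
        · rw [← ha]
          apply Gmono2
          simpa using hab)
      have hblock : HasBlock π S.card := by
        refine ⟨s, v, hs1, fun i hi1 hi2 => ?_⟩
        have hi : i ∈ S := (hs2 i).2 ⟨hi1, hi2⟩
        have hTi : π i ∈ T := by
          rw [memT]
          simpa using (memS i).1 hi
        have := (hv2 (π i)).1 hTi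
        rw [hTcard] at this
        exact this
      have hk2 : 2 ≤ S.card := by
        have : ({i₀, j₀} : Finset (Fin n)) ⊆ S := by
          intro x hx
          simp only [Finset.mem_insert, Finset.mem_singleton] at hx
          rcases hx with rfl | rfl
          · exact (memS _).2 rfl
          · exact (memS _).2 hij₀.symm
        calc 2 = ({i₀, j₀} : Finset (Fin n)).card := (Finset.card_pair hne₀).symm
          _ ≤ S.card := Finset.card_le_card this
      have hkn : S.card ≤ n := by
        simpa using Finset.card_le_univ S
      rcases hkn.lt_or_eq with hlt | heq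
      · exact h _ hk2 hlt hblock
      · have huniv : S = Finset.univ := by
          apply Finset.eq_univ_of_card
          rw [heq, Fintype.card_fin]
        have hall : ∀ l, g l = g i₀ := fun l => (memS l).1 (by rw [huniv]; exact Finset.mem_univ _)
        apply hρ
        refine ⟨q, fun i j hij => ?_, fun i j => ⟨fun hij => ?_, fun hij => ?_⟩⟩
        · rcases G1 i j hij with h1 | h1
          · rw [hall i, hall j] at h1
            exact absurd h1 (lt_irrefl _)
          · exact h1.2
        · rcases G2 i j hij with h1 | h1
          · rw [hall i, hall j] at h1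
            exact absurd h1 (lt_irrefl _)
          · exact h1.2
        · by_contra hcon
          rcases (not_lt.1 hcon).lt_or_eq with hl | hl
          · rcases G2 j i hl with h1 | h1
            · rw [hall i, hall j] at h1
              exact absurd h1 (lt_irrefl _)
            · exact absurd h1.2 (not_lt.2 (le_of_lt hij))
          · rw [π.injective hl] at hij
            exact absurd hij (lt_irrefl _)
  · -- colourings
    intro c
    by_cases hblue : ∃ i : Fin m₁, ∀ j : Fin m₂, c (e.symm (i, j)) = false
    · right
      obtain ⟨i, hi⟩ := hblue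
      refine ⟨fun j => e.symm (i, j), ⟨fun j j' hjj => ?_, fun j j' => ?_⟩, hi⟩
      · rw [hX]
        simp [hjj]
      · rw [hY]
        simp
    · left
      push Not at hblue
      choose w hw using hblue
      refine ⟨fun i => e.symm (i, w i), ⟨fun i i' hii => ?_, fun i i' => ?_⟩, fun i => ?_⟩
      · rw [hX]
        left
        simpa using hii
      · rw [hY]
        simp only [Equiv.apply_symm_apply]
        constructor
        · intro h1
          exact Or.inl h1
        · rintro (h1 | h1)
          · exact h1
          · have := σ.injective h1.1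
            subst this
            exact absurd h1.2 (lt_irrefl _)
      · simpa using hw i

/-- the permutations which contain none of the `F i` -/
def AvF {k : ℕ} {m : Fin k → ℕ} (F : ∀ i, Perm (Fin (m i))) : Set (Σ r : ℕ, Perm (Fin r)) :=
  {τ | ∀ i, ¬ Contains τ.2 (F i)}

theorem unsplittable_avF {k : ℕ} {m : Fin k → ℕ} (F : ∀ i, Perm (Fin (m i)))
    (h : ∀ i, ∀ k, 2 ≤ k → k < m i → ¬ HasBlock (F i) k) : Unsplittable (AvF F) := by
  rintro ⟨m₁, σ⟩ hσ ⟨m₂, ρ⟩ hρ
  obtain ⟨τ, h1, h2⟩ := inflate σ ρ
  exact ⟨τ, fun i => h1 _ _ (h i) (hσ i) (hρ i), h2⟩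

end Pool.Agent.NH69.SD
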